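import Mathlib

set_option autoImplicit false

/-!
The product of `1 - χ(σ) T` over all characters of a finite cyclic group.
-/

namespace Pool.Agent.H623R3.ZT

open Finset

theorem prod_range_root {R : Type*} [CommRing R] [IsDomain R] {ω : R} {f : ℕ} (hf : 0 < f)
    (hω : IsPrimitiveRoot ω f) (T : R) : ∏ j ∈ range f, (1 - ω ^ j * T) = 1 - T ^ f := by
  have h1 := IsPrimitiveRoot.pow_sub_pow_eq_prod_sub_mul 1 T hf hω
  rw [one_pow] at h1
  rw [h1]
  refine Finset.prod_bij (fun j _ => ω ^ j) ?_ ?_ ?_ ?_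
  · intro j _
    rw [Polynomial.mem_nthRootsFinset hf, ← pow_mul, mul_comm, pow_mul, hω.pow_eq_one, one_pow]
  · intro i hi j hj hij
    exact hω.pow_inj (mem_range.1 hi) (mem_range.1 hj) hij
  · intro x hx
    have : NeZero f := ⟨hf.ne'⟩
    rw [Polynomial.mem_nthRootsFinset hf] at hx
    obtain ⟨i, hi, hi'⟩ := hω.eq_pow_of_pow_eq_one hx
    exact ⟨i, mem_range.2 hi, hi'⟩
  · intro j _
    rfl

theorem prod_range_periodic {R : Type*} [CommRing R] [IsDomain R] {ω : R} {f : ℕ} (hf : 0 < f)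
    (hω : IsPrimitiveRoot ω f) (T : R) (m : ℕ) :
    ∏ j ∈ range (f * m), (1 - ω ^ j * T) = (1 - T ^ f) ^ m := by
  induction m with
  | zero => simp
  | succ m ih =>
    rw [Nat.mul_succ, Finset.prod_range_add, ih, pow_succ]
    congr 1
    rw [← prod_range_root hf hω T]
    refine Finset.prod_congr rfl fun j _ => ?_
    rw [pow_add, pow_mul, hω.pow_eq_one, one_pow, one_mul]

open PowerSeries in
/-- The product of `1 - χ(σ) T` over all characters of a finite cyclic group. -/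
theorem finprod_char {Ω : Type*} [Field Ω] [IsAlgClosed Ω] [CharZero Ω] {G : Type*} [Group G]
    [Finite G] [IsCyclic G] (σ : G) (T : PowerSeries Ω) :
    ∏ᶠ χ : G →* Ωˣ, (1 - C ((χ σ : Ωˣ) : Ω) * T) = (1 - T ^ orderOf σ) ^ (Nat.card G / orderOf σ) := by
  classical
  obtain ⟨g, hg⟩ := IsCyclic.exists_generator (α := G)
  set N := Nat.card G with hN
  have hNpos : 0 < N := Nat.card_pos
  have hgo : orderOf g = N := orderOf_eq_card_of_forall_mem_zpowers hg
  have : NeZero N := ⟨hNpos.ne'⟩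
  have : NeZero (N : Ω) := ⟨by exact_mod_cast hNpos.ne'⟩
  obtain ⟨ζ₀, hζ₀⟩ := HasEnoughRootsOfUnity.exists_primitiveRoot Ω N
  obtain ⟨ζ, hζ⟩ : ∃ ζ : Ωˣ, IsPrimitiveRoot ζ N := by
    refine ⟨hζ₀.toRootsOfUnity.1, ?_⟩
    have h1 := hζ₀
    rw [← IsPrimitiveRoot.coe_units_iff]
    exact h1
  have hdiv : ∀ j : ℕ, orderOf (ζ ^ j) ∣ orderOf g := by
    intro j
    rw [hgo, orderOf_dvd_iff_pow_eq_one, ← pow_mul, mul_comm, pow_mul, hζ.pow_eq_one, one_pow]
  let e : Fin N → (G →* Ωˣ) := fun j => monoidHomOfForallMemZpowers hg (hdiv j)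
  have heg : ∀ j, e j g = ζ ^ (j : ℕ) := fun j => monoidHomOfForallMemZpowers_apply_gen hg (hdiv j)
  have he : Function.Bijective e := by
    constructor
    · intro i j hij
      have h1 := congrArg (fun χ : G →* Ωˣ => χ g) hij
      simp only [heg] at h1
      exact Fin.ext (hζ.pow_inj i.2 j.2 h1)
    · intro χ
      have h1 : (χ g) ^ N = 1 := by rw [← map_pow, ← hgo, pow_orderOf_eq_one, map_one]
      obtain ⟨i, hi, hi'⟩ : ∃ i < N, ζ ^ i = χ g := by
        have h2 : ((χ g : Ωˣ) : Ω) ^ N = 1 := by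
          rw [← Units.val_pow_eq_pow_val, h1, Units.val_one]
        obtain ⟨i, hi, hi'⟩ := ((IsPrimitiveRoot.coe_units_iff).2 hζ).eq_pow_of_pow_eq_one h2
        exact ⟨i, hi, Units.ext (by rw [Units.val_pow_eq_pow_val]; exact hi')⟩
      refine ⟨⟨i, hi⟩, ?_⟩
      rw [MonoidHom.eq_iff_eq_on_generator hg, heg]
      exact hi'
  obtain ⟨a, ha⟩ : ∃ a : ℕ, g ^ a = σ := by
    have h1 := hg σ
    rw [← mem_powers_iff_mem_zpowers, Submonoid.mem_powers_iff] at h1
    exact h1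
  have hζo : orderOf ζ = N := hζ.eq_orderOf.symm
  have hord : orderOf (ζ ^ a) = orderOf σ := by
    have h1 : IsOfFinOrder ζ := by
      rw [← orderOf_pos_iff, hζo]
      exact hNpos
    rw [← ha, h1.orderOf_pow, orderOf_pow, hgo, hζo]
  set f := orderOf σ with hf
  have hfpos : 0 < f := orderOf_pos σ
  have hω : IsPrimitiveRoot (ζ ^ a) f := by
    rw [← hord]
    exact IsPrimitiveRoot.orderOf _
  have hω2 : IsPrimitiveRoot (C (((ζ ^ a : Ωˣ) : Ω)) : PowerSeries Ω) f :=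
    (IsPrimitiveRoot.coe_units_iff.2 hω).map_of_injective PowerSeries.C_injective
  have hterm : ∀ j : Fin N, (1 - C (((ζ ^ a : Ωˣ) : Ω)) ^ (j : ℕ) * T : PowerSeries Ω) =
      1 - C ((e j σ : Ωˣ) : Ω) * T := by
    intro j
    congr 2
    rw [← ha, map_pow, heg, ← map_pow, ← Units.val_pow_eq_pow_val, ← pow_mul, ← pow_mul, mul_comm]
  rw [← finprod_eq_of_bijective (f := fun j : Fin N =>
    (1 - C (((ζ ^ a : Ωˣ) : Ω)) ^ (j : ℕ) * T : PowerSeries Ω)) e he hterm, finprod_eq_prod_of_fintype,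
    Fin.prod_univ_eq_prod_range (fun j => (1 - C (((ζ ^ a : Ωˣ) : Ω)) ^ j * T : PowerSeries Ω)) N]
  have hdvd : f ∣ N := orderOf_dvd_natCard σ
  conv_lhs => rw [← Nat.mul_div_cancel' hdvd]
  exact prod_range_periodic hfpos hω2 T (N / f)

end Pool.Agent.H623R3.ZT
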