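import Pool.Agent.KS6_3.ZL.H623R3.ZT.Zeta
import Pool.Agent.KS6_3.ZL.H623R3.ZT.Chars
import Pool.Agent.KS6_3.ZL.H278R3.ZT.LayerCurve
import Pool.Agent.KS6_3.ZL.H525R3.ZT.Ram2
import Pool.Agent.KS6_3.ZL.H525R3.FFp.Bridge
import Pool.Agent.KS6_3.ZL.H124R3.TaskFU

set_option autoImplicit false

/-!
Project ZT, part G: factorisation of the zeta series of the layers of a tower.
-/

open PowerSeries

namespace Pool.Agent.H623R3.ZT

open Pool.Agent.H707R3

variable {p : ℕ} [Fact p.Prime] {k F : Type} [Field k] [Field F] [Algebra k F]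

theorem locE_congr {K L : Type} [Field K] [Algebra F K] [Algebra k K] [Field L] [Algebra F L]
    [Algebra k L] (v : Place k F) (e : placesOver K v ≃ placesOver L v)
    (he : ∀ w, (e w).1.deg = w.1.deg) : locE p K v = locE p L v := by
  rw [locE, locE, ← finprod_set_coe_eq_finprod_mem, ← finprod_set_coe_eq_finprod_mem]
  exact finprod_eq_of_bijective e e.bijective fun w => by rw [he w]

theorem locE_mul {K : Type} [Field K] [Algebra F K] [Algebra k K] [Finite k]
    (hK : IsCurveFunctionField k K) (v : Place k F) (hfin : (placesOver K v).Finite) :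
    locE p K v * ∏ᶠ w ∈ placesOver K v, (1 - X ^ w.deg : PowerSeries ℂ_[p]) = 1 := by
  rw [locE, finprod_mem_eq_finite_toFinset_prod _ hfin, finprod_mem_eq_finite_toFinset_prod _ hfin,
    ← Finset.prod_mul_distrib]
  apply Finset.prod_eq_one
  intro w _
  apply PowerSeries.inv_mul_cancel
  have := deg_ne_zero hK w
  simp [this]

variable {E : Type} [Field E] [Algebra F E] [Algebra k E] [IsScalarTower k F E]

omit [Algebra k E] [IsScalarTower k F E] in
/-- Frobenius elements restrict to Frobenius elements. -/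
theorem frob_res (v : Place k F) (K : IntermediateField F E) [Normal F K] (σ : E ≃ₐ[F] E)
    (hσ : v.IsFrob σ) : v.IsFrob (AlgEquiv.restrictNormalHom K σ) := by
  obtain ⟨W, hW, h1⟩ := hσ
  refine ⟨W.comap (algebraMap K E), ?_, ?_⟩
  · rw [← hW]
    rfl
  · intro a ha
    rw [Pool.Agent.H639R3.comap_val_lt_one]
    have h2 := h1 (algebraMap K E a) ha
    have h3 : algebraMap K E (AlgEquiv.restrictNormalHom K σ a) = σ (algebraMap K E a) :=
      AlgEquiv.restrictNormal_commutes σ K a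
    rw [map_sub, map_pow, h3]
    exact h2

/-- the local factor at an unramified place -/
theorem locE_unram [Finite k] [CharP k p] (h : IsZpTower k F E p) (K : IntermediateField F E)
    (n : ℕ) (hK : Module.finrank F K = p ^ n) (v : Place k F) (hv : v.IsUnramified E)
    (S : Finset ((E ≃ₐ[F] E) →* ℂ_[p]ˣ)) (hS : ∀ χ, χ ∈ S ↔ orderOf χ ∣ p ^ n) :
    locE p K v * ∏ χ ∈ S, (1 - C ((χ (v.frob E) : ℂ_[p]ˣ) : ℂ_[p]) * X ^ v.deg) = 1 := by
  obtain ⟨Φ⟩ := h.group
  have hgal := h.galois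
  have hfd : FiniteDimensional F K := H278R3.ZT.layer_finite K n hK
  have hgK : IsGalois F K := H278R3.ZT.layer_galois Φ.toMulEquiv K
  have hcyc : IsCyclic (K ≃ₐ[F] K) := H278R3.ZT.layer_cyclic Φ.toMulEquiv K n hK
  have hcK : IsCurveFunctionField k K := H278R3.ZT.layer_curve h K
  have hker : ∀ s : E ≃ₐ[F] E, s ∈ K.fixingSubgroup ↔ (p : ℤ_[p]) ^ n ∣ (Φ s).toAdd := fun s =>
    H278R3.ZT.mem_layer_fixingSubgroup Φ.toMulEquiv K n hK s
  have hfr : v.IsFrob (v.frob E) := H124R3.ZT.taskFrob p k F E h v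
  have hur : v.IsUnramified K := by
    have h1 := H124R3.ZT.taskUnr p k F E h K v (H525R3.FFp.bridge h.base v)
      (H525R3.FFp.bridge_O h.base v) hv
    intro W hW
    apply h1 W
    rw [hW]
    exact (H525R3.FFp.bridge_O h.base v).symm
  have hres := frob_res v K (v.frob E) hfr
  have hprod := prod_placesOver h.base hcK v hur _ hres (Ω := ℂ_[p])
  have hfin := placesOver_finite (K := K) h.base v
  have h1 := locE_mul (p := p) hcK v hfin
  rw [hprod, prod_layer_chars Φ n K hker] at h1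
  have h2 : S = (finite_order_dvd Φ n K hker ℂ_[p]).toFinset := by
    ext χ
    rw [hS, Set.Finite.mem_toFinset]
    rfl
  rw [h2]
  exact h1

theorem order_iff {G : Type*} [Group G] (χ : G →* ℂ_[p]ˣ) (n : ℕ) :
    (orderOf χ ∣ p ^ (n + 1) ∧ ¬ orderOf χ ∣ p ^ n) ↔ orderOf χ = p ^ (n + 1) := by
  have hp : p.Prime := Fact.out
  constructor
  · rintro ⟨h1, h2⟩
    obtain ⟨m, hm, hm'⟩ := (Nat.dvd_prime_pow hp).1 h1
    rw [hm']
    congr 1
    by_contra hne
    apply h2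
    rw [hm']
    exact pow_dvd_pow p (by omega)
  · intro h1
    rw [h1]
    refine ⟨dvd_rfl, fun h2 => ?_⟩
    have := Nat.pow_dvd_pow_iff_le_right hp.one_lt |>.1 h2
    omega

omit [Algebra k E] [IsScalarTower k F E] in
open scoped PowerSeries.WithPiTopology in
theorem Lfun_mod [Finite k] (hF : IsCurveFunctionField k F) (χ : (E ≃ₐ[F] E) →* ℂ_[p]ˣ) (m : ℕ)
    (s : Finset {v : Place k F // v.IsUnramified E}) (hs : ∀ v, v.1.deg ≤ m → v ∈ s) :
    (X : PowerSeries ℂ_[p]) ^ (m + 1) ∣ Lfun k χ -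
      ∏ v ∈ s, (1 - C ((χ (v.1.frob E) : ℂ_[p]ˣ) : ℂ_[p]) * X ^ v.1.deg)⁻¹ := by
  classical
  exact tprod_mod (p := p) (fun v : {v : Place k F // v.IsUnramified E} =>
    ((χ (v.1.frob E) : ℂ_[p]ˣ) : ℂ_[p])) (fun v => v.1.deg) (fun v => deg_ne_zero hF v.1)
    (fun j => (finite_deg_le hF j).preimage Subtype.val_injective.injOn) m s hs

/-- **Task G.** -/
theorem taskG : H387R3.ZT.TaskG := by
  intro p _ k F E _ _ _ _ _ _ _ _ _ h
  classical
  obtain ⟨N, hN⟩ := H525R3.ZT.Ram.ram_layers h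
  refine ⟨N, fun K hK n hn => ?_⟩
  obtain ⟨Φ⟩ := h.group
  have hgal := h.galois
  have hF := h.base
  have hfd : ∀ n, FiniteDimensional F (K n) := fun n => H278R3.ZT.layer_finite (K n) n (hK n)
  have hgK : ∀ n, IsGalois F (K n) := fun n => H278R3.ZT.layer_galois Φ.toMulEquiv (K n)
  have hcK : ∀ n, IsCurveFunctionField k (K n) := fun n => H278R3.ZT.layer_curve h (K n)
  have hker : ∀ n, ∀ s : E ≃ₐ[F] E, s ∈ (K n).fixingSubgroup ↔ (p : ℤ_[p]) ^ n ∣ (Φ s).toAdd :=
    fun n s => H278R3.ZT.mem_layer_fixingSubgroup Φ.toMulEquiv (K n) n (hK n) s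
  let S : ℕ → Finset ((E ≃ₐ[F] E) →* ℂ_[p]ˣ) := fun n =>
    (finite_order_dvd Φ n (K n) (hker n) ℂ_[p]).toFinset
  have hS : ∀ n χ, χ ∈ S n ↔ orderOf χ ∣ p ^ n := by
    intro n χ
    simp only [S, Set.Finite.mem_toFinset]
    rfl
  have hSS : S n ⊆ S (n + 1) := by
    intro χ
    rw [hS, hS]
    exact fun h1 => h1.trans (pow_dvd_pow p (Nat.le_succ n))
  refine ⟨S (n + 1) \ S n, ?_, ?_⟩
  · intro χ
    rw [Finset.mem_sdiff, hS, hS, order_iff]
  · apply eq_of_mod
    intro m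
    set V : Finset (Place k F) := (finite_deg_le hF m).toFinset with hV
    have hVm : ∀ v : Place k F, v.deg ≤ m → v ∈ V := by
      intro v hv
      rw [hV, Set.Finite.mem_toFinset]
      exact hv
    have h1 := zeta_mod (p := p) (K := K (n + 1)) hF (hcK (n + 1)) m V hVm
    have h2 := zeta_mod (p := p) (K := K n) hF (hcK n) m V hVm
    let V' : Finset {v : Place k F // v.IsUnramified E} := V.subtype _
    have h3 : (X : PowerSeries ℂ_[p]) ^ (m + 1) ∣ ∏ χ ∈ S (n + 1) \ S n, Lfun k χ -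
        ∏ χ ∈ S (n + 1) \ S n, ∏ v ∈ V',
          (1 - C ((χ (v.1.frob E) : ℂ_[p]ˣ) : ℂ_[p]) * X ^ v.1.deg)⁻¹ := by
      apply prod_congr_mod
      intro χ _
      apply Lfun_mod hF χ m V'
      intro v hv
      simp only [V', Finset.mem_subtype]
      exact hVm _ hv
    have h4 := mul_congr_mod _ _ _ _ (m + 1) h2 h3
    have key : ∏ v ∈ V, locE p (K (n + 1)) v = (∏ v ∈ V, locE p (K n) v) *
        ∏ χ ∈ S (n + 1) \ S n, ∏ v ∈ V',
          (1 - C ((χ (v.1.frob E) : ℂ_[p]ˣ) : ℂ_[p]) * X ^ v.1.deg)⁻¹ := by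
      rw [Finset.prod_comm]
      have e1 : ∏ v ∈ V', ∏ χ ∈ S (n + 1) \ S n,
          (1 - C ((χ (v.1.frob E) : ℂ_[p]ˣ) : ℂ_[p]) * X ^ v.1.deg : PowerSeries ℂ_[p])⁻¹ =
          ∏ v ∈ V, if v.IsUnramified E then ∏ χ ∈ S (n + 1) \ S n,
          (1 - C ((χ (v.frob E) : ℂ_[p]ˣ) : ℂ_[p]) * X ^ v.deg : PowerSeries ℂ_[p])⁻¹ else 1 := by
        rw [Finset.prod_subtype_eq_prod_filter (s := V) (p := fun v => v.IsUnramified E)
          (fun v => ∏ χ ∈ S (n + 1) \ S n,
          (1 - C ((χ (v.frob E) : ℂ_[p]ˣ) : ℂ_[p]) * X ^ v.deg : PowerSeries ℂ_[p])⁻¹),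
          Finset.prod_filter]
      rw [e1, ← Finset.prod_mul_distrib]
      refine Finset.prod_congr rfl fun v _ => ?_
      split_ifs with hv
      · have u1 := locE_unram h (K n) n (hK n) v hv (S n) (hS n)
        have u2 := locE_unram h (K (n + 1)) (n + 1) (hK (n + 1)) v hv (S (n + 1)) (hS (n + 1))
        rw [← Finset.prod_sdiff hSS] at u2
        have u3 : (∏ χ ∈ S (n + 1) \ S n,
            (1 - C ((χ (v.frob E) : ℂ_[p]ˣ) : ℂ_[p]) * X ^ v.deg : PowerSeries ℂ_[p])⁻¹) *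
            ∏ χ ∈ S (n + 1) \ S n, (1 - C ((χ (v.frob E) : ℂ_[p]ˣ) : ℂ_[p]) * X ^ v.deg) = 1 := by
          rw [← Finset.prod_mul_distrib]
          apply Finset.prod_eq_one
          intro χ _
          apply PowerSeries.inv_mul_cancel
          have := deg_ne_zero hF v
          simp [this]
        set A := locE p (K (n + 1)) v
        set B := locE p (K n) v
        set P := ∏ χ ∈ S (n + 1) \ S n,
            (1 - C ((χ (v.frob E) : ℂ_[p]ˣ) : ℂ_[p]) * X ^ v.deg : PowerSeries ℂ_[p])⁻¹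
        set Q := ∏ χ ∈ S (n + 1) \ S n,
            (1 - C ((χ (v.frob E) : ℂ_[p]ˣ) : ℂ_[p]) * X ^ v.deg : PowerSeries ℂ_[p])
        set R := ∏ χ ∈ S n, (1 - C ((χ (v.frob E) : ℂ_[p]ˣ) : ℂ_[p]) * X ^ v.deg :
          PowerSeries ℂ_[p])
        calc A = A * (B * R) * (P * Q) := by rw [u1, u3, mul_one, mul_one]
          _ = (A * (Q * R)) * (B * P) := by ring
          _ = B * P := by rw [u2, one_mul]
      · rw [mul_one]
        obtain ⟨e, he⟩ := hN n (n + 1) hn (Nat.le_succ n) (K n) (K (n + 1)) (hK n) (hK (n + 1)) v hv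
        exact (locE_congr v e he).symm
    rw [← key] at h4
    have h5 := dvd_sub h1 h4
    have e2 : (H387R3.ZT.zetaP p k (K (n + 1)) - ∏ v ∈ V, locE p (K (n + 1)) v) -
        (H387R3.ZT.zetaP p k (K n) * ∏ χ ∈ S (n + 1) \ S n, Lfun k χ -
          ∏ v ∈ V, locE p (K (n + 1)) v) =
        H387R3.ZT.zetaP p k (K (n + 1)) -
          H387R3.ZT.zetaP p k (K n) * ∏ χ ∈ S (n + 1) \ S n, Lfun k χ := by ring
    rw [e2] at h5
    exact h5

end Pool.Agent.H623R3.ZT
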