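import Pool.Agent.KS6_3.ZL.H623R3.ZT.PlacesOver

set_option autoImplicit false

/-!
Coefficientwise congruences of Euler products.
-/

open PowerSeries

namespace Pool.Agent.H623R3.ZT

open Pool.Agent.H707R3

section alg

variable {R : Type*} [CommRing R]

/-- products of congruent series are congruent -/
theorem prod_congr_mod {ι : Type*} (s : Finset ι) (f g : ι → PowerSeries R) (k : ℕ)
    (h : ∀ i ∈ s, (X : PowerSeries R) ^ k ∣ f i - g i) :
    (X : PowerSeries R) ^ k ∣ ∏ i ∈ s, f i - ∏ i ∈ s, g i := by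
  let I : Ideal (PowerSeries R) := Ideal.span {(X : PowerSeries R) ^ k}
  rw [← Ideal.mem_span_singleton, ← Ideal.Quotient.eq, map_prod, map_prod]
  refine Finset.prod_congr rfl fun i hi => ?_
  rw [Ideal.Quotient.eq, Ideal.mem_span_singleton]
  exact h i hi

theorem mul_congr_mod (f f' g g' : PowerSeries R) (k : ℕ)
    (h : (X : PowerSeries R) ^ k ∣ f - f') (h' : (X : PowerSeries R) ^ k ∣ g - g') :
    (X : PowerSeries R) ^ k ∣ f * g - f' * g' := by
  have : f * g - f' * g' = (f - f') * g + f' * (g - g') := by ring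
  rw [this]
  exact dvd_add (h.mul_right _) (h'.mul_left _)

theorem prod_subset_mod {ι : Type*} [DecidableEq ι] (f : ι → PowerSeries R) (k : ℕ)
    {s T : Finset ι} (hT : T ⊆ s) (h : ∀ i ∈ s \ T, (X : PowerSeries R) ^ k ∣ f i - 1) :
    (X : PowerSeries R) ^ k ∣ ∏ i ∈ s, f i - ∏ i ∈ T, f i := by
  rw [← Finset.prod_sdiff hT]
  have h1 := prod_congr_mod (s \ T) f (fun _ => 1) k h
  rw [Finset.prod_const_one] at h1
  have h2 := mul_congr_mod _ _ _ _ k h1 (dvd_of_eq (sub_self (∏ i ∈ T, f i)).symm |>.trans (dvd_refl _) |> fun _ => by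
    rw [sub_self]; exact dvd_zero _ : (X : PowerSeries R) ^ k ∣ ∏ i ∈ T, f i - ∏ i ∈ T, f i)
  rw [one_mul] at h2
  exact h2

theorem eq_of_mod (f g : PowerSeries R) (h : ∀ k, (X : PowerSeries R) ^ (k + 1) ∣ f - g) :
    f = g := by
  ext k
  have := X_pow_dvd_iff.1 (h k) k (Nat.lt_succ_self k)
  rwa [map_sub, sub_eq_zero] at this

end alg

open scoped PowerSeries.WithPiTopology in
/-- An Euler product is congruent to the finite partial products. -/
theorem tprod_mod {p : ℕ} [Fact p.Prime] {ι : Type*} [DecidableEq ι] (a : ι → ℂ_[p]) (d : ι → ℕ)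
    (hd : ∀ i, d i ≠ 0) (hfin : ∀ k, {v | d v ≤ k}.Finite) (k : ℕ) (s : Finset ι)
    (hs : ∀ i, d i ≤ k → i ∈ s) :
    (X : PowerSeries ℂ_[p]) ^ (k + 1) ∣
      (∏' v, (1 - C (a v) * X ^ d v)⁻¹) - ∏ v ∈ s, (1 - C (a v) * X ^ d v)⁻¹ := by
  have e1 : (fun v => (1 - C (a v) * X ^ d v : PowerSeries ℂ_[p])⁻¹) =
      fun v => geom (a v) (d v) := by
    funext v
    exact inv_eq_geom _ (hd v)
  simp only [e1]
  rw [X_pow_dvd_iff]
  intro m hm
  rw [map_sub, sub_eq_zero, coeff_tprod_geom a d hfin m]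
  symm
  apply coeff_prod_eq
  · intro i hi
    rw [Set.Finite.mem_toFinset] at hi
    exact hs i (by have : d i ≤ m := hi; omega)
  · intro i hi
    apply X_pow_dvd_geom_sub_one
    have := (Finset.mem_sdiff.1 hi).2
    rw [Set.Finite.mem_toFinset] at this
    have h2 : ¬ d i ≤ m := this
    omega

end Pool.Agent.H623R3.ZT
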